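import Pool.Agent.V1137.Welsh.Lower

set_option autoImplicit false

/-! Welsh's paving problem fails on seven elements. -/

namespace Pool.Agent.V1137.Welsh

open Set

theorem exch_spec {B : List ℕ} (h : exch B = true) :
    Matroid.ExchangeProperty (fun X : Set (Fin 7) => ∃ b ∈ B, X = (S b : Set (Fin 7))) := by
  rintro X Y ⟨x, hx, rfl⟩ ⟨y, hy, rfl⟩ a ⟨hax, hay⟩
  rw [exch, List.all_eq_true] at h
  have h1 := h x hx
  rw [List.all_eq_true] at h1
  have h2 := h1 y hy
  rw [List.all_eq_true] at h2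
  have h3 := h2 a (List.mem_range.2 a.2)
  rw [Finset.mem_coe, mem_S] at hax hay
  rw [hax, Bool.eq_false_iff.2 hay] at h3
  simp only [Bool.not_false, Bool.and_self, Bool.not_true, Bool.false_or, List.any_eq_true,
    Bool.and_eq_true, Bool.not_eq_true', List.elem_eq_mem, decide_eq_true_eq] at h3
  obtain ⟨f, hf, hyf, hxf, hz⟩ := h3
  have hf7 := List.mem_range.1 hf
  refine ⟨⟨f, hf7⟩, ⟨?_, ?_⟩, _, hz, ?_⟩
  · rw [Finset.mem_coe, mem_S]; exact hyf
  · rw [Finset.mem_coe, mem_S]; simp [hxf]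
  · ext i
    rw [Finset.mem_coe, mem_S, Nat.testBit_or, Nat.testBit_xor, Nat.testBit_two_pow,
      Nat.testBit_two_pow, Set.mem_insert_iff, Set.mem_sdiff, Finset.mem_coe, mem_S,
      Set.mem_singleton_iff]
    by_cases hia : i = a
    · subst hia
      have hne : f ≠ i := by
        intro hfe
        rw [hfe] at hxf
        rw [hxf] at hax
        exact absurd hax (by simp)
      have hne' : ¬ (i = ⟨f, hf7⟩) := fun h => hne (by rw [h])
      simp [hax, hne, hne']
    · have hia' : ¬ ((a : ℕ) = i) := fun h => hia (Fin.ext h.symm)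
      by_cases hif : i = ⟨f, hf7⟩
      · subst hif
        simp
      · have hif' : ¬ (f = (i : ℕ)) := fun h => hif (Fin.ext h.symm)
        simp [hia, hif, hia', hif']

/-- the matroid with given bases -/
def mat (B : List ℕ) (h : exch B = true) (h0 : B.isEmpty = false) : Matroid (Fin 7) :=
  Matroid.ofIsBaseOfFinite (E := Set.univ) (Set.toFinite _)
    (fun X : Set (Fin 7) => ∃ b ∈ B, X = (S b : Set (Fin 7)))
    (by
      cases B with
      | nil => simp at h0
      | cons b B => exact ⟨_, b, by simp, rfl⟩)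
    (exch_spec h) (fun _ _ => Set.subset_univ _)

theorem mat_ground (B : List ℕ) (h : exch B = true) (h0 : B.isEmpty = false) :
    (mat B h h0).E = Set.univ := rfl

theorem S_subset_iff {m b : ℕ} (hm : m < 128) : S m ⊆ S b ↔ b &&& m = m := by
  constructor
  · intro h
    apply Nat.eq_of_testBit_eq
    intro i
    rw [Nat.testBit_and]
    by_cases hi : m.testBit i = true
    · have hi7 : i < 7 := by
        by_contra hc
        have h1 : m < 2 ^ i := lt_of_lt_of_le hm (by
          calc 128 = 2 ^ 7 := by norm_num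
            _ ≤ 2 ^ i := Nat.pow_le_pow_right (by norm_num) (by omega))
        rw [Nat.testBit_lt_two_pow h1] at hi
        exact absurd hi (by simp)
      have := h (show (⟨i, hi7⟩ : Fin 7) ∈ S m from mem_S.2 hi)
      rw [mem_S] at this
      simp only at this
      rw [this, hi]; rfl
    · rw [Bool.eq_false_iff.2 hi]; simp
  · intro h i hi
    rw [mem_S] at hi ⊢
    rw [← h, Nat.testBit_and, Bool.and_eq_true] at hi
    exact hi.1

theorem mat_indep (B : List ℕ) (h : exch B = true) (h0 : B.isEmpty = false) {m : ℕ}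
    (hm : m < 128) : (mat B h h0).Indep (S m : Set (Fin 7)) ↔ isInd B m = true := by
  rw [Matroid.indep_iff, isInd, List.any_eq_true]
  constructor
  · rintro ⟨X, ⟨b, hb, rfl⟩, hX⟩
    exact ⟨b, hb, by rw [decide_eq_true_eq]; exact (S_subset_iff hm).1 (by exact_mod_cast hX)⟩
  · rintro ⟨b, hb, hbm⟩
    rw [decide_eq_true_eq] at hbm
    exact ⟨_, ⟨b, hb, rfl⟩, by exact_mod_cast (S_subset_iff hm).2 hbm⟩

open Classical in
/-- the numerical invariant of a matroid -/
noncomputable def inv (M : Matroid (Fin 7)) : ℕ :=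
  ∑ p : Fin 7, (∑ I : Finset (Fin 7), if p ∈ I ∧ M.Indep (I : Set (Fin 7)) then 1 else 0) ^ 2

theorem inv_iso {M N : Matroid (Fin 7)} (σ : Equiv.Perm (Fin 7))
    (h : ∀ I : Set (Fin 7), N.Indep I ↔ M.Indep (σ '' I)) : inv N = inv M := by
  classical
  unfold inv
  rw [← Equiv.sum_comp σ (fun p : Fin 7 => (∑ I : Finset (Fin 7),
    if p ∈ I ∧ M.Indep (I : Set (Fin 7)) then 1 else 0) ^ 2)]
  apply Finset.sum_congr rfl
  intro p _
  refine congrArg (fun x : ℕ => x ^ 2) ?_
  rw [← Equiv.sum_comp σ.finsetCongr (fun I : Finset (Fin 7) =>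
    if σ p ∈ I ∧ M.Indep (I : Set (Fin 7)) then 1 else 0)]
  apply Finset.sum_congr rfl
  intro I _
  have e1 : (σ p ∈ σ.finsetCongr I) ↔ p ∈ I := by
    rw [Equiv.finsetCongr_apply, Finset.mem_map_equiv]; simp
  have e2 : ((σ.finsetCongr I : Finset (Fin 7)) : Set (Fin 7)) = σ '' (I : Set (Fin 7)) := by
    rw [Equiv.finsetCongr_apply, Finset.coe_map]; rfl
  have e3 : (p ∈ I ∧ N.Indep (I : Set (Fin 7))) ↔
      (σ p ∈ σ.finsetCongr I ∧ M.Indep ((σ.finsetCongr I : Finset (Fin 7)) : Set (Fin 7))) := by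
    rw [e1, e2, h]
  by_cases hc : p ∈ I ∧ N.Indep (I : Set (Fin 7))
  · rw [if_pos hc, if_pos (e3.1 hc)]
  · rw [if_neg hc, if_neg (fun h' => hc (e3.2 h'))]

theorem sum_range_list (n : ℕ) (f : ℕ → ℕ) :
    ∑ i ∈ Finset.range n, f i = ((List.range n).map f).sum := by
  induction n with
  | zero => simp
  | succ n ih => rw [Finset.sum_range_succ, ih, List.range_succ, List.map_append, List.sum_append]; simp

theorem inv_mat (B : List ℕ) (h : exch B = true) (h0 : B.isEmpty = false) :
    inv (mat B h h0) = invm B := by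
  classical
  unfold inv invm
  rw [← sum_range_list, ← Fin.sum_univ_eq_sum_range]
  apply Finset.sum_congr rfl
  intro p _
  refine congrArg (fun x : ℕ => x ^ 2) ?_
  rw [← sum_range_list, ← Fin.sum_univ_eq_sum_range]
  rw [← Equiv.sum_comp (Equiv.ofBijective _ S_bij) (fun I : Finset (Fin 7) =>
    if p ∈ I ∧ (mat B h h0).Indep (I : Set (Fin 7)) then 1 else 0)]
  apply Finset.sum_congr rfl
  intro m _
  rw [Equiv.ofBijective_apply]
  have e3 : (p ∈ S m ∧ (mat B h h0).Indep (S m : Set (Fin 7))) ↔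
      (((m : ℕ).testBit p && isInd B m) = true) := by
    rw [mem_S, mat_indep B h h0 m.2, Bool.and_eq_true]
  by_cases hc : ((m : ℕ).testBit p && isInd B m) = true
  · rw [if_pos (e3.2 hc), if_pos hc]
  · rw [if_neg (fun h' => hc (e3.1 h')), if_neg hc]

/-- the list number `k` -/
def nb (k : ℕ) : List ℕ := nonpav.getD k []

theorem nonpav_len : nonpav.length = 51 := by decide

theorem nb_ok {k : ℕ} (hk : k < 51) : OK (nb k) = true := by
  have h := nonpav_ok
  rw [List.all_eq_true] at h
  apply h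
  rw [nb, List.getD_eq_getElem _ _ (by rw [nonpav_len]; exact hk)]
  exact List.getElem_mem _

theorem nb_inv {k : ℕ} (hk : k < 51) : invm (nb k) = vals.getD k 0 := by
  rw [← nonpav_vals, nb, List.getD_eq_getElem _ _ (by rw [nonpav_len]; exact hk),
    List.getD_eq_getElem _ _ (by rw [List.length_map, nonpav_len]; exact hk), List.getElem_map]

theorem vals_inj : ∀ k l : Fin 51, vals.getD k 0 = vals.getD l 0 → k = l := by decide +kernel

/-- a class which is not a class of paving matroids -/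
def NP (M : Matroid (Fin 7)) : Prop :=
  ∃ I J : Finset (Fin 7), ¬ M.Indep (I : Set (Fin 7)) ∧ M.Indep (J : Set (Fin 7)) ∧ I.card < J.card

theorem NP_iso {M N : Matroid (Fin 7)} (σ : Equiv.Perm (Fin 7))
    (h : ∀ I : Set (Fin 7), N.Indep I ↔ M.Indep (σ '' I)) (hN : NP N) : NP M := by
  obtain ⟨I, J, hI, hJ, hc⟩ := hN
  refine ⟨I.image σ, J.image σ, ?_, ?_, ?_⟩
  · rwa [Finset.coe_image, ← h]
  · rwa [Finset.coe_image, ← h]
  · rwa [Finset.card_image_of_injective _ σ.injective, Finset.card_image_of_injective _ σ.injective]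

theorem not_NP {M : Matroid (Fin 7)} {r : ℕ} (h : Pav M r) : ¬ NP M := by
  rintro ⟨I, J, hI, hJ, hc⟩
  apply hI
  apply h.indep_lt
  have := h.ncard_le hJ
  rw [Set.ncard_coe_finset] at this ⊢
  omega

/-- the set of classes of simple matroids -/
def T : Set (Set (Matroid (Fin 7))) :=
  {c : Set (Matroid (Fin 7)) |
    ∃ M : Matroid (Fin 7), M.E = Set.univ ∧
      (∀ C : Set (Fin 7), M.IsCircuit C → 3 ≤ C.ncard) ∧ c = cls M}

theorem mem_cls_self {M : Matroid (Fin 7)} (h : M.E = Set.univ) : M ∈ cls M :=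
  ⟨h, 1, fun I => by simp⟩

theorem exists_mat (k : Fin 51) : ∃ M : Matroid (Fin 7), M.E = Set.univ ∧
    (∀ C : Set (Fin 7), M.IsCircuit C → 3 ≤ C.ncard) ∧ NP M ∧ inv M = vals.getD k 0 := by
  classical
  have hok := nb_ok k.2
  rw [OK, Bool.and_eq_true, Bool.and_eq_true, Bool.and_eq_true, Bool.not_eq_true',
    List.all_eq_true, List.any_eq_true] at hok
  obtain ⟨he, h0, hpair, m, hm, hnp⟩ := hok
  refine ⟨mat (nb k) he h0, rfl, ?_, ?_, ?_⟩
  · intro C hC
    by_contra hlt
    obtain ⟨c, hc, hcS⟩ := S_surj C.toFinset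
    have hCS : (S c : Set (Fin 7)) = C := by rw [hcS]; simp
    have hpop : pop c = C.ncard := by
      rw [← S_card hc, ← Set.ncard_coe_finset, hCS]
    have h1 := hpair c (List.mem_range.2 hc)
    have h2 : decide (pop c ≤ 2) = true := by rw [decide_eq_true_eq]; omega
    rw [h2] at h1
    simp only [Bool.not_true, Bool.false_or] at h1
    have h3 := (mat_indep (nb k) he h0 hc).2 h1
    rw [hCS] at h3
    exact hC.not_indep h3
  · rw [Bool.and_eq_true, Bool.not_eq_true', List.any_eq_true] at hnp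
    obtain ⟨hmi, b, hb, hb2⟩ := hnp
    rw [Bool.and_eq_true, decide_eq_true_eq, decide_eq_true_eq] at hb2
    refine ⟨S m, S b, ?_, ?_, ?_⟩
    · rw [mat_indep _ _ _ (List.mem_range.1 hm), hmi]; simp
    · rw [mat_indep _ _ _ hb2.1, isInd, List.any_eq_true]
      exact ⟨b, hb, by rw [decide_eq_true_eq, Nat.and_self]⟩
    · rw [S_card (List.mem_range.1 hm), S_card hb2.1]; exact hb2.2
  · rw [inv_mat, nb_inv k.2]

instance finite_matroid : Finite (Matroid (Fin 7)) := by
  apply Finite.of_injective (fun M : Matroid (Fin 7) => (M.E, {I : Set (Fin 7) | M.Indep I}))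
  intro M N h
  simp only [Prod.mk.injEq] at h
  exact Matroid.ext_indep h.1 fun I _ => by
    have := Set.ext_iff.1 h.2 I
    exact this

theorem T_ncard : P.ncard + 51 ≤ T.ncard := by
  classical
  choose M hE hs hn hi using exists_mat
  let R : Set (Set (Matroid (Fin 7))) := Set.range fun k : Fin 51 => cls (M k)
  have hinj : Function.Injective fun k : Fin 51 => cls (M k) := by
    intro k l hkl
    have h1 : M k ∈ cls (M l) := by
      have : cls (M k) = cls (M l) := hkl
      rw [← this]; exact mem_cls_self (hE k)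
    obtain ⟨_, σ, hσ⟩ := h1
    have h2 := inv_iso σ hσ
    rw [hi, hi] at h2
    exact vals_inj k l h2
  have hR : R.ncard = 51 := by
    have : R = (fun k : Fin 51 => cls (M k)) '' Set.univ := by rw [Set.image_univ]
    rw [this, Set.ncard_image_of_injective _ hinj, Set.ncard_univ]
    simp
  have hdisj : Disjoint P R := by
    rw [Set.disjoint_left]
    rintro c ⟨N, hNE, hNs, hNp, rfl⟩ ⟨k, hk⟩
    have h1 : M k ∈ cls N := by
      have : cls (M k) = cls N := hk
      rw [← this]; exact mem_cls_self (hE k)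
    obtain ⟨_, σ, hσ⟩ := h1
    obtain ⟨B, hB⟩ := N.exists_isBase
    exact not_NP (r := B.ncard) ⟨hNE, hNs, fun C hC => hNp C B hC hB, B, hB, rfl⟩
      (NP_iso σ hσ (hn k))
  have hsub : P ∪ R ⊆ T := by
    rintro c (⟨N, hNE, hNs, hNp, rfl⟩ | ⟨k, rfl⟩)
    · exact ⟨N, hNE, hNs, rfl⟩
    · exact ⟨M k, hE k, hs k, rfl⟩
  calc P.ncard + 51 = (P ∪ R).ncard := by
        rw [Set.ncard_union_eq hdisj (Set.toFinite _) (Set.toFinite _), hR]
    _ ≤ T.ncard := Set.ncard_le_ncard hsub (Set.toFinite _)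

theorem main : ¬ (2 * P.ncard > T.ncard) := by
  have h1 := P_ncard
  have h2 := T_ncard
  omega

end Pool.Agent.V1137.Welsh
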