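import Pool.Agent.V1137.Welsh.Data

set_option autoImplicit false

/-! Classification of the families of large hyperplanes of paving matroids on seven elements. -/

namespace Pool.Agent.V1137.Welsh

open Finset

/-- the subset of `Fin 7` with bit mask `m` -/
def S (m : ℕ) : Finset (Fin 7) := univ.filter fun i => m.testBit i = true

/-- number of elements of a mask -/
def pop (m : ℕ) : ℕ :=
  (m >>> 0) % 2 + (m >>> 1) % 2 + (m >>> 2) % 2 + (m >>> 3) % 2 + (m >>> 4) % 2
    + (m >>> 5) % 2 + (m >>> 6) % 2

/-- digit `i` of a permutation code -/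
def digit (t i : ℕ) : ℕ := (t >>> (3 * i)) % 8

/-- image of a mask under a permutation code -/
def img (t m : ℕ) : ℕ :=
  (List.range 7).foldl (fun a i => if m.testBit i then a ||| 2 ^ (digit t i) else a) 0

/-- the code is a permutation -/
def permOK (t : ℕ) : Bool :=
  (List.range 7).all fun i => decide (digit t i < 7) &&
    (List.range 7).all fun j => decide (i = j) || !decide (digit t i = digit t j)

/-- two lists have the same elements -/
def sameSet (L1 L2 : List ℕ) : Bool :=
  L1.all (fun x => L2.elem x) && L2.all (fun x => L1.elem x)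

/-- checks that adding the block `m` to the family number `j` gives a family in the list -/
def chk (r j m : ℕ) : Bool :=
  let rep := (reps r).getD j []
  if decide (r ≤ pop m) && decide (pop m ≤ 6) && rep.all (fun c => decide (pop (c &&& m) + 2 ≤ r))
  then
    let code := ((tab r).getD j []).getD m 0
    permOK (code / 64) && (decide (code % 64 < (reps r).length) &&
      sameSet ((m :: rep).map (img (code / 64))) ((reps r).getD (code % 64) []))
  else true

theorem chk3 : ((List.range (reps 3).length).all fun j => (List.range 128).all fun m => chk 3 j m)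
    = true := by decide +kernel

theorem chk4 : ((List.range (reps 4).length).all fun j => (List.range 128).all fun m => chk 4 j m)
    = true := by decide +kernel

theorem chk5 : ((List.range (reps 5).length).all fun j => (List.range 128).all fun m => chk 5 j m)
    = true := by decide +kernel

theorem chk6 : ((List.range (reps 6).length).all fun j => (List.range 128).all fun m => chk 6 j m)
    = true := by decide +kernel

theorem chk_all (r : ℕ) (h3 : 3 ≤ r) (h6 : r ≤ 6) (j : ℕ) (hj : j < (reps r).length) (m : ℕ)
    (hm : m < 128) : chk r j m = true := by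
  have key : ((List.range (reps r).length).all fun j => (List.range 128).all fun m => chk r j m)
      = true := by
    interval_cases r
    · exact chk3
    · exact chk4
    · exact chk5
    · exact chk6
  rw [List.all_eq_true] at key
  have := key j (List.mem_range.2 hj)
  rw [List.all_eq_true] at this
  exact this m (List.mem_range.2 hm)

theorem mem_S {m : ℕ} {i : Fin 7} : i ∈ S m ↔ m.testBit i = true := by simp [S]

theorem S_inj {m m' : ℕ} (hm : m < 128) (hm' : m' < 128) (h : S m = S m') : m = m' := by
  apply Nat.eq_of_testBit_eq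
  intro i
  by_cases hi : i < 7
  · have := Finset.ext_iff.1 h ⟨i, hi⟩
    rw [mem_S, mem_S] at this
    exact Bool.eq_iff_iff.2 this
  · have h1 : m < 2 ^ i := lt_of_lt_of_le hm (by
      calc 128 = 2 ^ 7 := by norm_num
        _ ≤ 2 ^ i := Nat.pow_le_pow_right (by norm_num) (by omega))
    have h2 : m' < 2 ^ i := lt_of_lt_of_le hm' (by
      calc 128 = 2 ^ 7 := by norm_num
        _ ≤ 2 ^ i := Nat.pow_le_pow_right (by norm_num) (by omega))
    rw [Nat.testBit_lt_two_pow h1, Nat.testBit_lt_two_pow h2]

theorem S_bij : Function.Bijective (fun m : Fin 128 => S m) := by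
  rw [Fintype.bijective_iff_injective_and_card]
  refine ⟨fun a b h => Fin.ext (S_inj a.2 b.2 h), ?_⟩
  rw [Fintype.card_fin, Fintype.card_finset, Fintype.card_fin]
  norm_num

theorem S_surj (B : Finset (Fin 7)) : ∃ m, m < 128 ∧ S m = B := by
  obtain ⟨m, hm⟩ := S_bij.2 B
  exact ⟨m, m.2, hm⟩

theorem S_card_aux : ∀ m : Fin 128, (S m).card = pop m := by decide +kernel

theorem S_card {m : ℕ} (hm : m < 128) : (S m).card = pop m := S_card_aux ⟨m, hm⟩

theorem S_and (a b : ℕ) : S (a &&& b) = S a ∩ S b := by
  ext i
  rw [mem_S, mem_inter, mem_S, mem_S, Nat.testBit_and, Bool.and_eq_true]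

theorem testBit_fold (m : ℕ) (d : ℕ → ℕ) (i : ℕ) (L : List ℕ) (a : ℕ) :
    (L.foldl (fun a j => if m.testBit j then a ||| 2 ^ (d j) else a) a).testBit i = true ↔
      (a.testBit i = true ∨ ∃ j ∈ L, m.testBit j = true ∧ d j = i) := by
  induction L generalizing a with
  | nil => simp
  | cons x L ih =>
    rw [List.foldl_cons, ih]
    by_cases hx : m.testBit x = true
    · rw [if_pos hx, Nat.testBit_or, Nat.testBit_two_pow]
      simp only [Bool.or_eq_true, decide_eq_true_eq, List.mem_cons, exists_eq_or_imp, hx, true_and]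
      tauto
    · rw [if_neg hx]
      simp only [List.mem_cons, exists_eq_or_imp, hx, false_and, false_or]
      simp

/-- the permutation with a given code -/
noncomputable def permOf (t : ℕ) (h : permOK t = true) : Equiv.Perm (Fin 7) := by
  have h1 : ∀ i : Fin 7, digit t i < 7 := by
    intro i
    rw [permOK, List.all_eq_true] at h
    have := h i (List.mem_range.2 i.2)
    rw [Bool.and_eq_true, decide_eq_true_eq] at this
    exact this.1
  refine Equiv.ofBijective (fun i => ⟨digit t i, h1 i⟩) (Finite.injective_iff_bijective.1 ?_)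
  intro i j hij
  rw [permOK, List.all_eq_true] at h
  have := h i (List.mem_range.2 i.2)
  rw [Bool.and_eq_true, List.all_eq_true] at this
  have := this.2 j (List.mem_range.2 j.2)
  rw [Bool.or_eq_true, Bool.not_eq_true', decide_eq_true_eq, decide_eq_false_iff_not] at this
  rcases this with h | h
  · exact Fin.ext h
  · exact absurd (Fin.ext_iff.1 hij) h

theorem permOf_val (t : ℕ) (h : permOK t = true) (i : Fin 7) :
    ((permOf t h i : Fin 7) : ℕ) = digit t i := rfl

theorem S_img (t : ℕ) (h : permOK t = true) (m : ℕ) :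
    S (img t m) = (S m).image (permOf t h) := by
  ext i
  rw [mem_S, img, testBit_fold, mem_image]
  constructor
  · rintro (h0 | ⟨j, hj, hm, hd⟩)
    · simp at h0
    · refine ⟨⟨j, List.mem_range.1 hj⟩, mem_S.2 hm, Fin.ext ?_⟩
      rw [permOf_val]
      exact hd
  · rintro ⟨j, hj, rfl⟩
    exact Or.inr ⟨j, List.mem_range.2 j.2, mem_S.1 hj, (permOf_val t h j).symm⟩

/-- the family given by a list of masks -/
def fam (L : List ℕ) : Finset (Finset (Fin 7)) := (L.map S).toFinset

theorem mem_fam {L : List ℕ} {B : Finset (Fin 7)} : B ∈ fam L ↔ ∃ c ∈ L, S c = B := by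
  simp [fam]

theorem fam_same {L1 L2 : List ℕ} (h : sameSet L1 L2 = true) : fam L1 = fam L2 := by
  rw [sameSet, Bool.and_eq_true, List.all_eq_true, List.all_eq_true] at h
  ext B
  rw [mem_fam, mem_fam]
  constructor
  · rintro ⟨c, hc, rfl⟩
    exact ⟨c, by simpa using h.1 c hc, rfl⟩
  · rintro ⟨c, hc, rfl⟩
    exact ⟨c, by simpa using h.2 c hc, rfl⟩

theorem reps_zero (r : ℕ) (h3 : 3 ≤ r) (h6 : r ≤ 6) :
    0 < (reps r).length ∧ (reps r).getD 0 [] = [] := by
  interval_cases r <;> decide

theorem classify (r : ℕ) (h3 : 3 ≤ r) (h6 : r ≤ 6) (F : Finset (Finset (Fin 7)))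
    (hF1 : ∀ B ∈ F, r ≤ B.card ∧ B.card ≤ 6)
    (hF2 : ∀ B ∈ F, ∀ C ∈ F, B ≠ C → (B ∩ C).card + 2 ≤ r) :
    ∃ σ : Equiv.Perm (Fin 7), ∃ j < (reps r).length,
      F.image (fun B => B.image σ) = fam ((reps r).getD j []) := by
  classical
  induction F using Finset.induction_on with
  | empty =>
    refine ⟨1, 0, (reps_zero r h3 h6).1, ?_⟩
    rw [(reps_zero r h3 h6).2]
    simp [fam]
  | insert B F hB ih =>
    obtain ⟨σ, j, hj, hσ⟩ := ih (fun C hC => hF1 C (mem_insert_of_mem hC))
      (fun C hC D hD => hF2 C (mem_insert_of_mem hC) D (mem_insert_of_mem hD))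
    obtain ⟨m, hm, hSm⟩ := S_surj (B.image σ)
    have hinj : Function.Injective (σ : Fin 7 → Fin 7) := σ.injective
    have hc := chk_all r h3 h6 j hj m hm
    have hcardB : pop m = B.card := by
      rw [← S_card hm, hSm, card_image_of_injective _ hinj]
    have hcond : (decide (r ≤ pop m) && decide (pop m ≤ 6) &&
        ((reps r).getD j []).all (fun c => decide (pop (c &&& m) + 2 ≤ r))) = true := by
      rw [Bool.and_eq_true, Bool.and_eq_true, decide_eq_true_eq, decide_eq_true_eq,
        List.all_eq_true, hcardB]
      refine ⟨hF1 B (mem_insert_self _ _), ?_⟩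
      intro c hcm
      rw [decide_eq_true_eq]
      have h1 : S c ∈ fam ((reps r).getD j []) := mem_fam.2 ⟨c, hcm, rfl⟩
      rw [← hσ, mem_image] at h1
      obtain ⟨C, hC, hCS⟩ := h1
      have hne : B ≠ C := fun h => hB (h ▸ hC)
      have h2 := hF2 B (mem_insert_self _ _) C (mem_insert_of_mem hC) hne
      have h3 : c &&& m < 128 := lt_of_le_of_lt Nat.and_le_right hm
      rw [← S_card h3, S_and, ← hCS, hSm, ← image_inter _ _ hinj, inter_comm,
        card_image_of_injective _ hinj]
      exact h2
    simp only [chk] at hc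
    rw [if_pos hcond] at hc
    set code := ((tab r).getD j []).getD m 0 with hcode
    rw [Bool.and_eq_true, Bool.and_eq_true, decide_eq_true_eq] at hc
    obtain ⟨hp, hj', hs⟩ := hc
    refine ⟨σ.trans (permOf _ hp), code % 64, hj', ?_⟩
    rw [← fam_same hs]
    ext X
    rw [mem_fam, mem_image]
    constructor
    · rintro ⟨C, hC, rfl⟩
      rcases mem_insert.1 hC with rfl | hC
      · refine ⟨img (code / 64) m, by simp, ?_⟩
        rw [S_img _ hp, hSm, image_image]
        rfl
      · have h1 : C.image σ ∈ fam ((reps r).getD j []) := by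
          rw [← hσ]; exact mem_image_of_mem _ hC
        obtain ⟨c, hcm, hcS⟩ := mem_fam.1 h1
        refine ⟨img (code / 64) c, List.mem_map_of_mem (List.mem_cons_of_mem _ hcm), ?_⟩
        rw [S_img _ hp, hcS, image_image]
        rfl
    · rintro ⟨c, hc, rfl⟩
      obtain ⟨d, hd, rfl⟩ := List.mem_map.1 hc
      rcases List.mem_cons.1 hd with rfl | hd
      · refine ⟨B, mem_insert_self _ _, ?_⟩
        rw [S_img _ hp, hSm, image_image]
        rfl
      · have h1 : S d ∈ fam ((reps r).getD j []) := mem_fam.2 ⟨d, hd, rfl⟩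
        rw [← hσ, mem_image] at h1
        obtain ⟨C, hC, hCS⟩ := h1
        refine ⟨C, mem_insert_of_mem hC, ?_⟩
        rw [S_img _ hp, ← hCS, image_image]
        rfl

end Pool.Agent.V1137.Welsh
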