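import Pool.Agent.V1137.Welsh.Upper

set_option autoImplicit false

/-! 51 isomorphism classes of simple matroids on seven elements that are not paving. -/

namespace Pool.Agent.V1137.Welsh

open Set

/-- is the mask contained in a base -/
def isInd (B : List ℕ) (m : ℕ) : Bool := B.any fun b => decide (b &&& m = m)

/-- base exchange -/
def exch (B : List ℕ) : Bool :=
  B.all fun x => B.all fun y => (List.range 7).all fun e =>
    !(x.testBit e && !y.testBit e) ||
      (List.range 7).any fun f => y.testBit f && (!x.testBit f && B.elem ((x ^^^ 2 ^ e) ||| 2 ^ f))

/-- all checks for a simple matroid that is not paving -/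
def OK (B : List ℕ) : Bool :=
  exch B && (!B.isEmpty && (((List.range 128).all fun m => !decide (pop m ≤ 2) || isInd B m) &&
    ((List.range 128).any fun m => !isInd B m &&
      B.any fun b => decide (b < 128) && decide (pop m < pop b))))

/-- the numerical invariant -/
def invm (B : List ℕ) : ℕ :=
  ((List.range 7).map fun p =>
    (((List.range 128).map fun m => if m.testBit p && isInd B m then 1 else 0).sum) ^ 2).sum

theorem nonpav_ok : (nonpav.all fun B => OK B) = true := by decide +kernel

/-- values of the invariant -/
def vals : List ℕ := [7263, 7696, 9043, 6196, 4048, 7414, 8743, 8266, 5773, 6403, 7513, 9303, 9925, 7453, 8518, 9619, 9124, 7008, 9613, 7000, 9317, 8828, 6573, 8536, 6148, 10831, 10515, 10507, 9376, 10203, 9895, 15679, 19564, 18625, 17073, 20101, 17584, 20644, 12985, 16740, 15252, 17633, 16117, 18544, 12304, 13672, 15088, 9904, 25688, 23344, 19456]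

theorem nonpav_vals : nonpav.map invm = vals := by decide +kernel

end Pool.Agent.V1137.Welsh
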