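import Pool.Agent.V1137.Welsh.Comb

set_option autoImplicit false

/-! At most 50 isomorphism classes of simple paving matroids on seven elements. -/

namespace Pool.Agent.V1137.Welsh

open Set

variable {M : Matroid (Fin 7)} {r : ℕ}

/-- a simple paving matroid of rank `r` on `Fin 7` -/
structure Pav (M : Matroid (Fin 7)) (r : ℕ) : Prop where
  ground : M.E = Set.univ
  simple : ∀ C : Set (Fin 7), M.IsCircuit C → 3 ≤ C.ncard
  pav : ∀ C : Set (Fin 7), M.IsCircuit C → r ≤ C.ncard
  base : ∃ B : Set (Fin 7), M.IsBase B ∧ B.ncard = r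

theorem indep_of_circ (hE : M.E = Set.univ) {k : ℕ} (h : ∀ C : Set (Fin 7), M.IsCircuit C → k ≤ C.ncard)
    {I : Set (Fin 7)} (hI : I.ncard < k) : M.Indep I := by
  by_contra hn
  have hd : M.Dep I := (Matroid.not_indep_iff (by rw [hE]; exact subset_univ _)).1 hn
  obtain ⟨C, hCI, hC⟩ := hd.exists_isCircuit_subset
  have h1 := h C hC
  have h2 := Set.ncard_le_ncard hCI (Set.toFinite _)
  omega

theorem Pav.indep_lt (h : Pav M r) {I : Set (Fin 7)} (hI : I.ncard < r) : M.Indep I :=
  indep_of_circ h.ground h.pav hI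

theorem ncard_eq_of_encard {A B : Set (Fin 7)} (h : A.encard = B.encard) : A.ncard = B.ncard := by
  rw [Set.ncard_def, Set.ncard_def, h]

theorem Pav.ncard_le (h : Pav M r) {I : Set (Fin 7)} (hI : M.Indep I) : I.ncard ≤ r := by
  obtain ⟨B, hB, hIB⟩ := hI.exists_isBase_superset
  obtain ⟨B', hB', hr⟩ := h.base
  have h1 := Set.ncard_le_ncard hIB (Set.toFinite _)
  have h2 := ncard_eq_of_encard (hB.encard_eq_encard_of_isBase hB')
  omega

theorem Pav.two_le (h : Pav M r) : 2 ≤ r := by
  have h1 : M.Indep ({0, 1} : Set (Fin 7)) :=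
    indep_of_circ h.ground h.simple (by rw [Set.ncard_pair (by decide)]; norm_num)
  have h2 := h.ncard_le h1
  rwa [Set.ncard_pair (by decide)] at h2

theorem Pav.le_seven (h : Pav M r) : r ≤ 7 := by
  obtain ⟨B', _, hr⟩ := h.base
  rw [← hr]
  have := Set.ncard_le_card B'
  simpa using this

theorem ncard_le_of_closure {T I : Set (Fin 7)} (hT : M.Indep T) (hI : M.Indep I)
    (h : I ⊆ M.closure T) : I.ncard ≤ T.ncard := by
  obtain ⟨J, hJ, hIJ⟩ := hI.subset_isBasis_of_subset h
  have h1 := ncard_eq_of_encard (hJ.encard_eq_encard hT.isBasis_closure)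
  rw [← h1]
  exact Set.ncard_le_ncard hIJ (Set.toFinite _)

theorem closure_eq_of {T U : Set (Fin 7)} (hT : M.Indep T) (hU : M.Indep U)
    (h : U ⊆ M.closure T) (hc : T.ncard ≤ U.ncard) : M.closure U = M.closure T := by
  obtain ⟨J, hJ, hIJ⟩ := hU.subset_isBasis_of_subset h
  have h1 := ncard_eq_of_encard (hJ.encard_eq_encard hT.isBasis_closure)
  have h2 : U = J := Set.eq_of_subset_of_ncard_le hIJ (by omega) (Set.toFinite _)
  rw [h2, hJ.closure_eq_closure, Matroid.closure_closure]

/-- the hyperplanes with at least `r` elements -/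
noncomputable def blocks (M : Matroid (Fin 7)) (r : ℕ) : Finset (Finset (Fin 7)) := by
  classical
  exact Finset.univ.filter fun B => r ≤ B.card ∧
    ∃ T : Set (Fin 7), T.ncard + 1 = r ∧ (B : Set (Fin 7)) = M.closure T

theorem mem_blocks {B : Finset (Fin 7)} : B ∈ blocks M r ↔ r ≤ B.card ∧
    ∃ T : Set (Fin 7), T.ncard + 1 = r ∧ (B : Set (Fin 7)) = M.closure T := by
  simp [blocks]

theorem Pav.blocks_card (h : Pav M r) {B : Finset (Fin 7)} (hB : B ∈ blocks M r) :
    r ≤ B.card ∧ B.card ≤ 6 := by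
  rw [mem_blocks] at hB
  obtain ⟨hr, T, hT, hBT⟩ := hB
  refine ⟨hr, ?_⟩
  by_contra hcon
  have h7 : B.card = 7 := by
    have := Finset.card_le_univ B
    simp at this
    omega
  have hBu : B = Finset.univ := by
    rw [← Finset.card_eq_iff_eq_univ, h7]; simp
  have hTi : M.Indep T := h.indep_lt (by omega)
  obtain ⟨B', hB', hr'⟩ := h.base
  have h1 : B' ⊆ M.closure T := by
    rw [← hBT, hBu]; simp
  have := ncard_le_of_closure hTi hB'.indep h1
  omega

theorem Pav.blocks_inter (h : Pav M r) {B C : Finset (Fin 7)} (hB : B ∈ blocks M r)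
    (hC : C ∈ blocks M r) (hne : B ≠ C) : (B ∩ C).card + 2 ≤ r := by
  by_contra hcon
  apply hne
  have h2 := h.two_le
  rw [mem_blocks] at hB hC
  obtain ⟨hrB, T, hT, hBT⟩ := hB
  obtain ⟨hrC, U, hU, hCU⟩ := hC
  obtain ⟨W, hW, hWc⟩ := Finset.exists_subset_card_eq (show r - 1 ≤ (B ∩ C).card by omega)
  have hTi : M.Indep T := h.indep_lt (by omega)
  have hUi : M.Indep U := h.indep_lt (by omega)
  have hWn : ((W : Set (Fin 7))).ncard = r - 1 := by rw [Set.ncard_coe_finset, hWc]
  have hWi : M.Indep (W : Set (Fin 7)) := h.indep_lt (by omega)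
  have e1 : M.closure (W : Set (Fin 7)) = M.closure T := by
    apply closure_eq_of hTi hWi _ (by omega)
    rw [← hBT]
    exact_mod_cast hW.trans Finset.inter_subset_left
  have e2 : M.closure (W : Set (Fin 7)) = M.closure U := by
    apply closure_eq_of hUi hWi _ (by omega)
    rw [← hCU]
    exact_mod_cast hW.trans Finset.inter_subset_right
  have : (B : Set (Fin 7)) = C := by rw [hBT, hCU, ← e1, ← e2]
  exact_mod_cast this

theorem Pav.indep_card (h : Pav M r) {I : Set (Fin 7)} (hI : I.ncard = r) :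
    M.Indep I ↔ ∀ B ∈ blocks M r, ¬ I ⊆ (B : Set (Fin 7)) := by
  classical
  have h2 := h.two_le
  constructor
  · intro hi B hB hsub
    rw [mem_blocks] at hB
    obtain ⟨hrB, T, hT, hBT⟩ := hB
    have hTi : M.Indep T := h.indep_lt (by omega)
    rw [hBT] at hsub
    have := ncard_le_of_closure hTi hi hsub
    omega
  · intro hall
    by_contra hn
    have hd : M.Dep I := (Matroid.not_indep_iff (by rw [h.ground]; exact subset_univ _)).1 hn
    obtain ⟨C, hCI, hC⟩ := hd.exists_isCircuit_subset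
    have h1 := h.pav C hC
    have hCe : C = I := Set.eq_of_subset_of_ncard_le hCI (by omega) (Set.toFinite _)
    subst hCe
    obtain ⟨x, hx⟩ := hC.nonempty
    have hsub := hC.subset_closure_sdiff_singleton x
    refine hall (M.closure (C \ {x})).toFinset ?_ (by simpa using hsub)
    rw [mem_blocks]
    refine ⟨?_, C \ {x}, ?_, by simp⟩
    · rw [← hI, ← Set.ncard_eq_toFinset_card']
      exact Set.ncard_le_ncard hsub (Set.toFinite _)
    · rw [Set.ncard_sdiff_singleton_add_one hx (Set.toFinite _), hI]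

/-- independence predicate determined by the rank and a family of blocks -/
def IndF (r : ℕ) (F : Finset (Finset (Fin 7))) (I : Set (Fin 7)) : Prop :=
  I.ncard < r ∨ (I.ncard = r ∧ ∀ B ∈ F, ¬ I ⊆ (B : Set (Fin 7)))

theorem Pav.indep_iff (h : Pav M r) (I : Set (Fin 7)) : M.Indep I ↔ IndF r (blocks M r) I := by
  constructor
  · intro hi
    have h1 := h.ncard_le hi
    rcases lt_or_eq_of_le h1 with h2 | h2
    · exact Or.inl h2
    · exact Or.inr ⟨h2, (h.indep_card h2).1 hi⟩
  · rintro (h1 | ⟨h1, h2⟩)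
    · exact h.indep_lt h1
    · exact (h.indep_card h1).2 h2

theorem IndF_image (F : Finset (Finset (Fin 7))) (σ : Equiv.Perm (Fin 7)) (I : Set (Fin 7)) :
    IndF r (F.image fun B => B.image σ) (σ '' I) ↔ IndF r F I := by
  unfold IndF
  rw [Set.ncard_image_of_injective _ σ.injective]
  have : (∀ B ∈ F.image (fun B : Finset (Fin 7) => B.image σ),
      ¬ (σ '' I) ⊆ ((B : Finset (Fin 7)) : Set (Fin 7))) ↔
      ∀ B ∈ F, ¬ I ⊆ (B : Set (Fin 7)) := by
    simp only [Finset.mem_image, forall_exists_index, and_imp, forall_apply_eq_imp_iff₂,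
      Finset.coe_image, Set.image_subset_image_iff σ.injective]
  rw [this]

theorem Pav.classify (h : Pav M r) : ∃ σ : Equiv.Perm (Fin 7), ∃ j < (reps r).length,
    (blocks M r).image (fun B => B.image σ) = fam ((reps r).getD j []) := by
  have h2 := h.two_le
  have h7 := h.le_seven
  rcases Nat.lt_or_ge r 3 with hr | hr
  · have : r = 2 := by omega
    subst this
    have hb : blocks M 2 = ∅ := by
      rw [Finset.eq_empty_iff_forall_notMem]
      intro B hB
      have hc := (h.blocks_card hB).1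
      obtain ⟨W, hW, hWc⟩ := Finset.exists_subset_card_eq hc
      have hWn : ((W : Set (Fin 7))).ncard = 2 := by rw [Set.ncard_coe_finset, hWc]
      have hWi : M.Indep (W : Set (Fin 7)) := indep_of_circ h.ground h.simple (by omega)
      exact (h.indep_card hWn).1 hWi B hB (by exact_mod_cast hW)
    refine ⟨1, 0, by decide, ?_⟩
    rw [hb]
    decide
  · rcases Nat.lt_or_ge r 7 with hr' | hr'
    · exact Welsh.classify r hr (by omega) _ (fun B hB => h.blocks_card hB)
        (fun B hB C hC hne => h.blocks_inter hB hC hne)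
    · have : r = 7 := by omega
      subst this
      have hb : blocks M 7 = ∅ := by
        rw [Finset.eq_empty_iff_forall_notMem]
        intro B hB
        have hc := (h.blocks_card hB)
        omega
      refine ⟨1, 0, by decide, ?_⟩
      rw [hb]
      decide

/-- the isomorphism class of a matroid -/
def cls (M : Matroid (Fin 7)) : Set (Matroid (Fin 7)) :=
  {N : Matroid (Fin 7) | N.E = Set.univ ∧
    ∃ σ : Equiv.Perm (Fin 7), ∀ I : Set (Fin 7), N.Indep I ↔ M.Indep (σ '' I)}

theorem cls_eq {M M' : Matroid (Fin 7)} (σ : Equiv.Perm (Fin 7))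
    (h : ∀ I : Set (Fin 7), M.Indep I ↔ M'.Indep (σ '' I)) : cls M = cls M' := by
  ext N
  constructor
  · rintro ⟨hE, τ, hτ⟩
    refine ⟨hE, τ.trans σ, fun I => ?_⟩
    rw [hτ, h, ← Set.image_comp]
    rfl
  · rintro ⟨hE, τ, hτ⟩
    refine ⟨hE, τ.trans σ.symm, fun I => ?_⟩
    rw [hτ, h, ← Set.image_comp]
    have : (σ ∘ (τ.trans σ.symm)) = τ := by
      funext x; simp
    rw [this]

theorem cls_eq_of_pav {M M' : Matroid (Fin 7)} (h : Pav M r) (h' : Pav M' r)
    {σ σ' : Equiv.Perm (Fin 7)} {G : Finset (Finset (Fin 7))}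
    (hσ : (blocks M r).image (fun B => B.image σ) = G)
    (hσ' : (blocks M' r).image (fun B => B.image σ') = G) : cls M = cls M' := by
  apply cls_eq (σ.trans σ'.symm)
  intro I
  rw [h.indep_iff, h'.indep_iff, ← IndF_image (blocks M r) σ, ← IndF_image (blocks M' r) σ',
    hσ, hσ', ← Set.image_comp]
  have : (σ' ∘ (σ.trans σ'.symm)) = σ := by
    funext x; simp
  rw [this]

/-- the set of classes of simple paving matroids -/
def P : Set (Set (Matroid (Fin 7))) :=
  {c : Set (Matroid (Fin 7)) |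
    ∃ M : Matroid (Fin 7), M.E = Set.univ ∧
      (∀ C : Set (Fin 7), M.IsCircuit C → 3 ≤ C.ncard) ∧
      (∀ C B : Set (Fin 7), M.IsCircuit C → M.IsBase B → B.ncard ≤ C.ncard) ∧ c = cls M}

/-- the index set: ranks and indices of representatives -/
def J : Finset (ℕ × ℕ) :=
  ((Finset.range 8) ×ˢ (Finset.range 23)).filter fun p => p.2 < (reps p.1).length

theorem J_card : J.card = 50 := by decide +kernel

theorem reps_len (r : ℕ) (h2 : 2 ≤ r) (h7 : r ≤ 7) : (reps r).length ≤ 23 := by
  interval_cases r <;> decide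

theorem P_ncard : P.ncard ≤ 50 := by
  classical
  let Q : ℕ × ℕ → Matroid (Fin 7) → Prop := fun p M => Pav M p.1 ∧
    ∃ σ : Equiv.Perm (Fin 7), (blocks M p.1).image (fun B => B.image σ)
      = fam ((reps p.1).getD p.2 [])
  let g : ℕ × ℕ → Set (Matroid (Fin 7)) := fun p =>
    if h : ∃ M, Q p M then cls (Classical.choose h) else ∅
  have hsub : P ⊆ g '' (J : Set (ℕ × ℕ)) := by
    rintro c ⟨M, hE, hs, hp, rfl⟩
    obtain ⟨B, hB⟩ := M.exists_isBase
    have hP : Pav M B.ncard := ⟨hE, hs, fun C hC => hp C B hC hB, B, hB, rfl⟩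
    obtain ⟨σ, j, hj, hσ⟩ := hP.classify
    have hQ : Q (B.ncard, j) M := ⟨hP, σ, hσ⟩
    refine ⟨(B.ncard, j), ?_, ?_⟩
    · rw [Finset.mem_coe, J, Finset.mem_filter, Finset.mem_product, Finset.mem_range,
        Finset.mem_range]
      have := reps_len _ hP.two_le hP.le_seven
      have := hP.le_seven
      exact ⟨⟨by simp only; omega, by simp only; omega⟩, hj⟩
    · have hex : ∃ M, Q (B.ncard, j) M := ⟨M, hQ⟩
      show (if h : ∃ M, Q (B.ncard, j) M then cls (Classical.choose h) else ∅) = cls M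
      rw [dif_pos hex]
      obtain ⟨h1, τ, hτ⟩ := Classical.choose_spec hex
      exact cls_eq_of_pav h1 hP hτ hσ
  calc P.ncard ≤ (g '' (J : Set (ℕ × ℕ))).ncard :=
        Set.ncard_le_ncard hsub ((Finset.finite_toSet J).image _)
    _ ≤ ((J : Set (ℕ × ℕ))).ncard := Set.ncard_image_le (Finset.finite_toSet J)
    _ = 50 := by rw [Set.ncard_coe_finset, J_card]

end Pool.Agent.V1137.Welsh
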